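import Pool.Agent.H38.OG.Div

set_option autoImplicit false

/-!
# The countable-or-perfect dichotomy for ordered abelian groups

The Polish group `Sym(ℕ)` acts on the Polish space of structures on `ℕ` with an order and an
addition. For a set `D` of primes we consider the totally ordered abelian groups which are
`q`-divisible for all `q ∈ D`.

* If `D` contains all primes (divisible groups), the dichotomy holds for all invariant Borel sets of
  these groups. (This part is a theorem of the library.)
* If `D` omits a prime, then these groups are faithfully complete, and the dichotomy for them is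
  equivalent to the dichotomy for all countable structures. The same holds for every larger class,
  for instance for all ordered abelian groups and for all (lattice-)ordered groups.

Outline of the second part. Let `p` be a prime which is not in `D` and `θ` a `p`-adic integer which
is not rational. By a theorem of the library, the pairs `<₁, <₂` of linear orders of `ℕ` are
faithfully complete. To such a pair we attach the group of all `(a, b)` in `ℚ^(ℕ) × ℚ^(ℕ)` with
`a n - θ * b n` a `p`-adic integer for all `n`, ordered lexicographically: `b` comes first and is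
ordered by its leading coefficient with respect to `<₂`, and `a` by its leading coefficient with
respect to `<₁`. The elements `(a, 0)` are those which are infinitely smaller than every element with
a `p`-divisible archimedean component, and `(0, a)` is the only element `h` such that `h + t * (a, 0)`
is divisible by `p ^ k` for all integers `t` with `θ - t` divisible by `p ^ k`. This makes it possible
to recognise the two orders. The groups obtained in this way are characterised by a Borel condition:
finite sets of matching units with respect to both orders can be extended so that they generate any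
given element.
-/

namespace Pool.Agent.Results.MP_5607ba_lc.OrderedAbelianGroups

/-- Structures on `ℕ` with a binary relation `x.1` (the order) and a binary operation `x.2` (the
addition). -/
abbrev Structures : Type := (ℕ → ℕ → Bool) × (ℕ → ℕ → ℕ)

/-- Isomorphism of structures: `x` and `y` are in the same orbit of `Sym(ℕ)`. -/
def Isomorphic (x y : Structures) : Prop := ∃ σ : Equiv.Perm ℕ,
  (∀ m n, y.1 (σ m) (σ n) = x.1 m n) ∧ ∀ m n, y.2 (σ m) (σ n) = σ (x.2 m n)

/-- `x` is (a copy of) a totally ordered abelian group which is `q`-divisible for all `q ∈ D`. -/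
def OrderedGroup (D : Set ℕ) (x : Structures) : Prop :=
  ∃ (G : Type) (_ : AddCommGroup G) (_ : LinearOrder G) (_ : IsOrderedAddMonoid G) (e : ℕ ≃ G),
    (∀ m n, x.1 m n = true ↔ e m < e n) ∧ (∀ m n, e (x.2 m n) = e m + e n) ∧
    ∀ q ∈ D, ∀ g : G, ∃ h : G, q • h = g

/-- Relational structures on `ℕ` with relations of arities `a 0, a 1, ...`. -/
abbrev Str (a : ℕ → ℕ) : Type := (i : ℕ) → (Fin (a i) → ℕ) → Bool

/-- Isomorphism of relational structures: the orbits of `Sym(ℕ)`. -/
def Iso {a : ℕ → ℕ} (x y : Str a) : Prop :=
  ∃ σ : Equiv.Perm ℕ, ∀ (i : ℕ) (v : Fin (a i) → ℕ), y i (⇑σ ∘ v) = x i v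

/-- The dichotomy for the class `K`: every Borel set of members of `K`, invariant under `R`, has
countably many `R`-classes or contains a continuous family, indexed by the Cantor space, of pairwise
inequivalent members. -/
def Dichotomy {X : Type} [TopologicalSpace X] [MeasurableSpace X] (R : X → X → Prop)
    (K : X → Prop) : Prop :=
  ∀ B : Set X, MeasurableSet B → (∀ x y, R x y → (x ∈ B ↔ y ∈ B)) → (∀ x ∈ B, K x) →
    (∃ f : ℕ → X, ∀ x ∈ B, ∃ n, R (f n) x) ∨
    (∃ g : (ℕ → Bool) → X, Continuous g ∧ (∀ c, g c ∈ B) ∧ ∀ c d, R (g c) (g d) → c = d)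

/-- The dichotomy for all countable structures, in all countable relational languages. -/
def DichotomyAll : Prop := ∀ a : ℕ → ℕ, Dichotomy (Iso (a := a)) (fun _ => True)

/-- `K` is faithfully complete: for every invariant Borel set `B` of structures (in any countable
relational language) there are an invariant Borel set `B'` of members of `K` and a Borel map `F`
from `B'` to `B` that induces a bijection of the orbits. -/
def FaithfullyComplete (K : Structures → Prop) : Prop :=
  ∀ (a : ℕ → ℕ) (B : Set (Str a)), MeasurableSet B → (∀ x y, Iso x y → (x ∈ B ↔ y ∈ B)) →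
    ∃ (B' : Set Structures) (F : Structures → Str a), MeasurableSet B' ∧
      (∀ y z, Isomorphic y z → (y ∈ B' ↔ z ∈ B')) ∧
      (∀ y ∈ B', K y) ∧ Measurable F ∧ (∀ y ∈ B', F y ∈ B) ∧
      (∀ y ∈ B', ∀ z ∈ B', Isomorphic y z ↔ Iso (F y) (F z)) ∧ ∀ x ∈ B, ∃ y ∈ B', Iso x (F y)

private theorem pv {X : Type} [TopologicalSpace X] [MeasurableSpace X] (R : X → X → Prop)
    (K : X → Prop) : Dichotomy R K ↔ Pool.Agent.W889.VC.VCof True R K := by
  constructor
  · intro h B h1 h2 h3
    rcases h B h1 h2 h3 with ⟨f, hf⟩ | ⟨g, h3, h4, h5⟩
    · exact Or.inl ⟨f, hf⟩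
    · exact Or.inr ⟨g, fun _ => h3, h4, h5⟩
  · intro h B h1 h2 h3
    rcases h B h1 h2 h3 with ⟨f, hf⟩ | ⟨g, h3, h4, h5⟩
    · exact Or.inl ⟨f, hf⟩
    · exact Or.inr ⟨g, h3 trivial, h4, h5⟩

/-- **Theorem.** Let `D` be a set of primes. (1) If `D` contains all primes, the dichotomy holds for
the ordered abelian groups which are `q`-divisible for all `q ∈ D`. (2) If `D` omits a prime, then
every class `K` of structures which contains all ordered abelian groups that are `q`-divisible for
all `q ∈ D` is faithfully complete, and the dichotomy for `K` is equivalent to the dichotomy for all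
countable structures. -/
theorem result (D : Set ℕ) (hD : ∀ q ∈ D, q.Prime) :
    ((∀ q : ℕ, q.Prime → q ∈ D) → Dichotomy Isomorphic (OrderedGroup D)) ∧
    ((∃ p : ℕ, p.Prime ∧ p ∉ D) →
      ∀ K : Structures → Prop, (∀ x, OrderedGroup D x → K x) →
        FaithfullyComplete K ∧ (Dichotomy Isomorphic K ↔ DichotomyAll)) := by
  refine ⟨fun h => (pv _ _).2 (Pool.Agent.H38.OG.vc_div D h), fun ⟨p, hp, hpD⟩ K hK => ?_⟩
  have hf : Pool.Agent.W889.VC.Faithful Isomorphic K :=
    (Pool.Agent.H38.OG.faithful_OGD hD hp hpD).mono hK
  refine ⟨hf, fun hV a => ?_, fun hV => ?_⟩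
  · rw [pv] at hV ⊢
    have b0 : BorelSpace (ℕ → Bool) := Pi.borelSpace
    have b1 : BorelSpace (ℕ → ℕ → Bool) := Pi.borelSpace
    have b2 : BorelSpace (ℕ → ℕ) := Pi.borelSpace
    have b3 : BorelSpace (ℕ → ℕ → ℕ) := Pi.borelSpace
    have bb : BorelSpace Structures := Prod.borelSpace
    exact hf.vaught True hV a
  · rw [pv]
    exact Pool.Agent.H38.OG.vc_up ((pv _ _).1 (hV _)) K

end Pool.Agent.Results.MP_5607ba_lc.OrderedAbelianGroups
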